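import Pool.Agent.helper22.FI.SpecA

set_option autoImplicit false

namespace Pool.Agent.FI

open Pool.Agent.helper58.DC Pool.Agent.DI Pool.Agent.GR Pool.Agent.OB

theorem STC (h1 : GLP_stmt) : STC_stmt := by
  intro G _ _ L ψ hψ g
  obtain ⟨m, hm⟩ : ∃ m, Nat.card G = m + 1 := ⟨Nat.card G - 1, (Nat.succ_pred_eq_of_pos Nat.card_pos).symm⟩
  have hcop : m.Coprime (Nat.card G) := by
    rw [hm]
    exact (Nat.coprime_self_add_right).2 (Nat.coprime_one_right m)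
  have hσ : ∀ ζ : ℂ, ζ ^ Nat.card G = 1 → (Complex.conjAe.toRingEquiv : ℂ ≃+* ℂ) ζ = ζ ^ m := by
    intro ζ hζ
    have hn : ‖ζ‖ = 1 := Complex.norm_eq_one_of_pow_eq_one hζ Nat.card_pos.ne'
    have h0 : ζ ≠ 0 := by
      intro h
      rw [h, norm_zero] at hn
      exact zero_ne_one hn
    have h2 : (starRingEnd ℂ) ζ * ζ = 1 := by
      rw [Complex.conj_mul', hn]
      simp
    have h3 : ζ ^ m * ζ = 1 := by
      rw [← pow_succ, ← hm, hζ]
    change (starRingEnd ℂ) ζ = ζ ^ m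
    exact mul_right_cancel₀ h0 (h2.trans h3.symm)
  have h4 := h1 G (Complex.conjAe.toRingEquiv : ℂ ≃+* ℂ) m hcop hσ L ψ hψ g
  have h5 : g ^ m = g⁻¹ := by
    apply eq_inv_of_mul_eq_one_left
    rw [← pow_succ, ← hm, pow_card_eq_one']
  rw [h5] at h4
  exact h4.symm

end Pool.Agent.FI
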