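import Pool.Agent.helper40.FI.SpecLA

set_option autoImplicit false

namespace Pool.Agent.FI

open Finset

lemma LC2_parseval {D : Type} [CommGroup D] [Fintype D] [Fintype (D →* ℂˣ)] (s : Finset (D →* ℂˣ)) (a : (D →* ℂˣ) → ℤ) :
    ∑ u : D, ‖∑ l ∈ s, (a l : ℂ) * lv l u‖ ^ 2 = (Nat.card D : ℝ) * ((∑ l ∈ s, a l ^ 2 : ℤ) : ℝ) := by
  classical
  have key : ∑ u : D, (∑ l ∈ s, (a l : ℂ) * lv l u) * (starRingEnd ℂ) (∑ l ∈ s, (a l : ℂ) * lv l u) =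
      (Nat.card D : ℂ) * ((∑ l ∈ s, a l ^ 2 : ℤ) : ℂ) := by
    have h1 : ∀ u : D, (∑ l ∈ s, (a l : ℂ) * lv l u) * (starRingEnd ℂ) (∑ l ∈ s, (a l : ℂ) * lv l u) =
        ∑ l ∈ s, ∑ l' ∈ s, (a l : ℂ) * (a l' : ℂ) * (lv l u * lv l' u⁻¹) := by
      intro u
      rw [map_sum, Finset.sum_mul_sum]
      refine Finset.sum_congr rfl fun l _ => Finset.sum_congr rfl fun l' _ => ?_
      rw [map_mul, star_lv, map_intCast]
      ring
    rw [Finset.sum_congr rfl fun u _ => h1 u, Finset.sum_comm]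
    rw [Int.cast_sum, Finset.mul_sum]
    refine Finset.sum_congr rfl fun l hl => ?_
    rw [Finset.sum_comm]
    have h2 : ∀ l' ∈ s, ∑ u : D, (a l : ℂ) * (a l' : ℂ) * (lv l u * lv l' u⁻¹) =
        if l = l' then (a l : ℂ) * (a l' : ℂ) * (Nat.card D : ℂ) else 0 := by
      intro l' _
      rw [← Finset.mul_sum, sum_lv_lv]
      split_ifs <;> simp
    rw [Finset.sum_congr rfl h2, Finset.sum_ite_eq, if_pos hl]
    push_cast
    ring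
  have h3 : ((∑ u : D, ‖∑ l ∈ s, (a l : ℂ) * lv l u‖ ^ 2 : ℝ) : ℂ) =
      (((Nat.card D : ℝ) * ((∑ l ∈ s, a l ^ 2 : ℤ) : ℝ) : ℝ) : ℂ) := by
    rw [Complex.ofReal_sum, Complex.ofReal_mul, Complex.ofReal_natCast, Complex.ofReal_intCast, ← key]
    refine Finset.sum_congr rfl fun u _ => ?_
    rw [Complex.mul_conj, Complex.normSq_eq_norm_sq]
  exact Complex.ofReal_injective h3

theorem LC2 (hLPC : LPC_stmt) (hLFI : LFI_stmt) : LC2_stmt := by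
  classical
  intro p D _ _ _ X _ Z I g hLG hI χ
  obtain ⟨l₀, hl₀⟩ := hLG.gz χ
  have hFx : LFx I l₀ := by
    intro t ht u
    rw [hI, Subgroup.mem_bot] at ht
    rw [ht]
    rfl
  have hχ : χ ∈ lX Z l₀ g := mem_lX.2 hl₀
  let A : X → (D →* ℂˣ) → ℤ := fun χ' l =>
    if h : ∀ z ∈ Z, lv l z = lv l₀ z then Classical.choose (hLG.gi χ' l l₀ h) else 0
  have hA : LAi Z l₀ g A := by
    intro χ' l hl
    have h := mem_ov.1 hl
    have h1 : A χ' l = Classical.choose (hLG.gi χ' l l₀ h) := dif_pos h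
    rw [h1]
    exact Classical.choose_spec (hLG.gi χ' l l₀ h)
  have h1 := (hLPC p D X Z I g l₀ A hLG hFx hA χ hχ).1
  have hcI : Nat.card I = 1 := by rw [hI]; exact Subgroup.card_bot
  rw [hcI] at h1
  set S2 : ℤ := ∑ l ∈ ov Z l₀, A χ l ^ 2 with hS2
  set S1 : ℤ := ∑ l ∈ ov Z l₀, A χ l with hS1
  have h2 : (Z.index : ℤ) - 1 ≤ (Z.index : ℤ) * S2 - S1 ^ 2 := by
    have e : ((Z.index : ℤ) - 1 + ((1 : ℕ) : ℤ)) * S2 - S1 ^ 2 = (Z.index : ℤ) * S2 - S1 ^ 2 := by push_cast; ring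
    rw [e] at h1
    simpa using h1
  have hP := LC2_parseval (ov Z l₀) (A χ)
  rw [← hS2] at hP
  -- split the sum
  have hsplit : ∀ f : D → ℝ, ∑ u, f u = ∑ u ∈ Finset.univ.filter (fun u => u ∈ Z), f u +
      ∑ u ∈ Finset.univ.filter (fun u => ¬ u ∈ Z), f u := fun f =>
    (Finset.sum_filter_add_sum_filter_not Finset.univ (fun u => u ∈ Z) f).symm
  have hZ : ∑ u ∈ Finset.univ.filter (fun u => u ∈ Z), ‖∑ l ∈ ov Z l₀, (A χ l : ℂ) * lv l u‖ ^ 2 =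
      (Nat.card Z : ℝ) * (S1 : ℝ) ^ 2 := by
    have h3 : ∀ u ∈ Finset.univ.filter (fun u : D => u ∈ Z), ‖∑ l ∈ ov Z l₀, (A χ l : ℂ) * lv l u‖ ^ 2 = (S1 : ℝ) ^ 2 := by
      intro u hu
      have hu' : u ∈ Z := (Finset.mem_filter.1 hu).2
      have h4 : ∑ l ∈ ov Z l₀, (A χ l : ℂ) * lv l u = (S1 : ℂ) * lv l₀ u := by
        rw [hS1, Int.cast_sum, Finset.sum_mul]
        refine Finset.sum_congr rfl fun l hl => ?_
        rw [mem_ov.1 hl u hu']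
      rw [h4, norm_mul, norm_lv, mul_one, Complex.norm_intCast, sq_abs]
    rw [Finset.sum_congr rfl h3, Finset.sum_const, nsmul_eq_mul]
    congr 2
    rw [Nat.card_eq_fintype_card, Fintype.card_subtype]
  have hgZ : ∑ u ∈ Finset.univ.filter (fun u => u ∈ Z), ‖g χ u‖ ^ 2 = 0 := by
    refine Finset.sum_eq_zero fun u hu => ?_
    rw [hLG.g0 χ u (Finset.mem_filter.1 hu).2]
    simp
  have hgn : ∑ u ∈ Finset.univ.filter (fun u => ¬ u ∈ Z), ‖g χ u‖ ^ 2 =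
      ∑ u ∈ Finset.univ.filter (fun u => ¬ u ∈ Z), ‖∑ l ∈ ov Z l₀, (A χ l : ℂ) * lv l u‖ ^ 2 := by
    refine Finset.sum_congr rfl fun u hu => ?_
    rw [hLFI D X Z g l₀ A hA χ hχ u (Finset.mem_filter.1 hu).2]
  have e1 := hsplit (fun u => ‖g χ u‖ ^ 2)
  have e2 := hsplit (fun u => ‖∑ l ∈ ov Z l₀, (A χ l : ℂ) * lv l u‖ ^ 2)
  have hcard : (Nat.card D : ℝ) = (Nat.card Z : ℝ) * (Z.index : ℝ) := by
    have := Subgroup.card_mul_index Z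
    exact_mod_cast this.symm
  have h5 : ((Z.index : ℝ) - 1) ≤ (Z.index : ℝ) * (S2 : ℝ) - (S1 : ℝ) ^ 2 := by exact_mod_cast h2
  have h6 : ∑ u, ‖g χ u‖ ^ 2 = (Nat.card Z : ℝ) * ((Z.index : ℝ) * (S2 : ℝ) - (S1 : ℝ) ^ 2) := by
    rw [e1, hgZ, hgn]
    have : ∑ u ∈ Finset.univ.filter (fun u => ¬ u ∈ Z), ‖∑ l ∈ ov Z l₀, (A χ l : ℂ) * lv l u‖ ^ 2 =
        (Nat.card D : ℝ) * (S2 : ℝ) - (Nat.card Z : ℝ) * (S1 : ℝ) ^ 2 := by
      rw [← hP, ← hZ, e2]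
      ring
    rw [this, hcard]
    ring
  rw [h6, hcard]
  have h7 : (0 : ℝ) ≤ (Nat.card Z : ℝ) := Nat.cast_nonneg _
  nlinarith [mul_le_mul_of_nonneg_left h5 h7]

end Pool.Agent.FI
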